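import Pool.Agent.TH232.RokhLoc

/-!
# Counting the bad times for correlations of any order of a `Mix(k)` map
-/

set_option autoImplicit false
open MeasureTheory Filter Topology ComplexConjugate
open Pool.Agent.H716R2

namespace Pool.Agent.TH232.RL

variable {X : Type*} [MeasurableSpace X]

theorem factSet_pred {μ : Measure X} [IsProbabilityMeasure μ] {T : X ≃ᵐ X} {m : ℕ}
    (h : FactSet μ T (m + 1)) : FactSet μ T m := by
  intro s hs A hA
  have h1 := h (fun n => (Fin.snoc (s n) (∑ i, s n i + n) : Fin (m + 1) → ℕ)) (by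
      intro N
      filter_upwards [hs N, eventually_ge_atTop N] with n hn hnN
      intro i j hij
      have hi : i ≠ Fin.last m := by
        rintro rfl
        exact absurd hij (not_lt.2 (Fin.le_last _))
      obtain ⟨i', rfl⟩ := Fin.exists_castSucc_eq.2 hi
      by_cases hj : j = Fin.last m
      · subst hj
        simp only [Fin.snoc_castSucc, Fin.snoc_last]
        have : s n i' ≤ ∑ i, s n i :=
          Finset.single_le_sum (fun _ _ => Nat.zero_le _) (Finset.mem_univ i')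
        omega
      · obtain ⟨j', rfl⟩ := Fin.exists_castSucc_eq.2 hj
        simp only [Fin.snoc_castSucc]
        exact hn i' j' (by simpa using hij))
    (Fin.snoc A Set.univ : Fin (m + 1) → Set X) (by
      intro i
      by_cases hi : i = Fin.last m
      · subst hi
        simp
      · obtain ⟨i', rfl⟩ := Fin.exists_castSucc_eq.2 hi
        simp only [Fin.snoc_castSucc]
        exact hA i')
  rw [Fin.prod_univ_castSucc] at h1
  simp only [Fin.snoc_castSucc, Fin.snoc_last, probReal_univ, mul_one] at h1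
  refine h1.congr (fun n => ?_)
  congr 1
  ext x
  simp only [Set.mem_iInter, Set.mem_preimage]
  rw [Fin.forall_fin_succ']
  simp only [Fin.snoc_castSucc, Fin.snoc_last, Set.mem_univ, and_true]

theorem factSet_le {μ : Measure X} [IsProbabilityMeasure μ] {T : X ≃ᵐ X} {m n : ℕ}
    (hmn : m ≤ n) (h : FactSet μ T n) : FactSet μ T m := by
  induction n, hmn using Nat.le_induction with
  | base => exact h
  | succ n _ ih => exact ih (factSet_pred h)

theorem prod_orderEmb {r : ℕ} (S : Finset (Fin r)) {m : ℕ} (hm : S.card = m) (h : Fin r → ℂ) :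
    ∏ i ∈ S, h i = ∏ j : Fin m, h (S.orderEmbOfFin hm j) := by
  conv_lhs => rw [← Finset.map_orderEmbOfFin_univ S hm]
  rw [Finset.prod_map]
  rfl

theorem Spread.orderEmb {r m : ℕ} {s : ℕ → Fin r → ℕ} (hs : Spread s) (e : Fin m ↪o Fin r) :
    Spread (fun n j => s n (e j)) := by
  intro N
  filter_upwards [hs N] with n hn
  intro i j hij
  exact hn _ _ (e.strictMono hij)

/-- correlations of at most `k + 1` centred functions are small -/
theorem small_corr {k r : ℕ} {μ : Measure X} [IsProbabilityMeasure μ] {T : X ≃ᵐ X}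
    (hT : MeasurePreserving T μ μ) (hfact : FactSet μ T (k + 1))
    {g : Fin r → X → ℂ} (hg : ∀ i, BM (g i)) (hmean : ∀ i, ∫ x, g i x ∂μ = 0)
    {S : Finset (Fin r)} (hS : S.Nonempty) (hSk : S.card ≤ k + 1) {s : ℕ → Fin r → ℕ}
    (hs : Spread s) (a : Fin r → ℕ) :
    Tendsto (fun n => ∫ x, ∏ i ∈ S, g i ((⇑T)^[s n i + a i] x) ∂μ) atTop (𝓝 0) := by
  have h1 := fact_fun hT (factSet_le hSk hfact)
    (Spread.orderEmb (Spread.shift hs a) (S.orderEmbOfFin rfl))
    (fun j => g (S.orderEmbOfFin rfl j)) (fun j => (hg _).1) (fun j => (hg _).2)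
  have h2 : ∏ j : Fin S.card, ∫ x, g (S.orderEmbOfFin rfl j) x ∂μ = 0 := by
    apply Finset.prod_eq_zero (Finset.mem_univ (⟨0, Finset.card_pos.2 hS⟩ : Fin S.card))
    exact hmean _
  rw [h2] at h1
  refine h1.congr (fun n => ?_)
  congr 1
  ext x
  exact (prod_orderEmb S rfl (fun i => g i ((⇑T)^[s n i + a i] x))).symm

theorem exists_bound {r : ℕ} {g : Fin r → X → ℂ} (hg : ∀ i, BM (g i)) :
    ∃ B : ℝ, 1 ≤ B ∧ ∀ i x, ‖g i x‖ ≤ B := by
  choose h1 C hC using hg
  refine ⟨1 + ∑ i, |C i|, ?_, fun i x => ?_⟩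
  · have : 0 ≤ ∑ i, |C i| := Finset.sum_nonneg (fun i _ => abs_nonneg _)
    linarith
  · have h1 : |C i| ≤ ∑ i, |C i| :=
      Finset.single_le_sum (f := fun i => |C i|) (fun i _ => abs_nonneg _) (Finset.mem_univ i)
    have h2 := hC i x
    have h3 := le_abs_self (C i)
    linarith

theorem card_window {r k W : ℕ} (I : Finset (Fin r)) (hI : I.card = k + 1) :
    (Fintype.piFinset (fun i : Fin r => if i ∈ I then ({0} : Finset ℕ) else Finset.range W)).card
      = W ^ (r - (k + 1)) := by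
  classical
  rw [Fintype.card_piFinset]
  have e : ∀ i : Fin r, (if i ∈ I then ({0} : Finset ℕ) else Finset.range W).card
      = if i ∈ I then 1 else W := by
    intro i
    by_cases hi : i ∈ I <;> simp [hi]
  simp only [e]
  rw [Finset.prod_ite]
  simp only [Finset.prod_const_one, one_mul, Finset.prod_const]
  congr 1
  have : (Finset.univ.filter (fun i => i ∉ I)) = Iᶜ := by
    ext i; simp
  rw [this, Finset.card_compl, hI, Fintype.card_fin]

/-- the count for one subset of the times -/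
theorem count_big {k r : ℕ} {μ : Measure X} [IsProbabilityMeasure μ] {T : X ≃ᵐ X}
    (hT : MeasurePreserving T μ μ) (hm : Mixing μ T) (hfact : FactSet μ T (k + 1))
    {g : Fin r → X → ℂ} (hg : ∀ i, BM (g i)) (hmean : ∀ i, ∫ x, g i x ∂μ = 0)
    {S I : Finset (Fin r)} (hIS : I ⊆ S) (hI : I.card = k + 1) {ε : ℝ} (hε : 0 < ε) :
    ∃ K : ℕ, ∀ W : ℕ, ∀ s : ℕ → Fin r → ℕ, Spread s → ∀ᶠ n in atTop,
      ((Fintype.piFinset fun _ : Fin r => Finset.range W).filter (fun a =>
        ε ≤ ‖∫ x, ∏ i ∈ S, g i ((⇑T)^[s n i + a i] x) ∂μ‖)).card ≤ K * W ^ (r - (k + 1)) := by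
  classical
  obtain ⟨B, hB1, hB⟩ := exists_bound hg
  have hBp : 0 < B ^ r := by positivity
  let e : Fin (k + 1) ↪o Fin r := I.orderEmbOfFin hI
  have heI : ∀ j, e j ∈ I := fun j => Finset.orderEmbOfFin_mem I hI j
  have hIe : ∀ i ∈ I, ∃ j, e j = i := by
    intro i hi
    have h1 : i ∈ Finset.univ.map (I.orderEmbOfFin hI).toEmbedding := by
      rw [Finset.map_orderEmbOfFin_univ]; exact hi
    rw [Finset.mem_map] at h1
    obtain ⟨j, _, hj⟩ := h1
    exact ⟨j, hj⟩
  obtain ⟨L, hL⟩ := main hT hm hfact (fun j => g (e j)) (fun j => hg _) (fun j => hmean _)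
    (show 0 < ε / B ^ r by positivity)
  set D : ℝ := ∏ j, ∫ x, ‖g (e j) x‖ ^ 2 ∂μ with hD
  refine ⟨⌊D / (ε / B ^ r) ^ 2⌋₊ * (2 * L) ^ (k + 1), fun W s hs => ?_⟩
  filter_upwards [hL W (fun n j => s n (e j)) (Spread.orderEmb hs e)] with n hn
  set Bad := (Fintype.piFinset fun _ : Fin r => Finset.range W).filter (fun a =>
        ε ≤ ‖∫ x, ∏ i ∈ S, g i ((⇑T)^[s n i + a i] x) ∂μ‖) with hBad
  let pr : (Fin r → ℕ) → (Fin r → ℕ) := fun a i => if i ∈ I then 0 else a i
  have himg : (Bad.image pr).card ≤ W ^ (r - (k + 1)) := by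
    rw [← card_window (W := W) I hI]
    apply Finset.card_le_card
    intro b hb
    rw [Finset.mem_image] at hb
    obtain ⟨a, ha, rfl⟩ := hb
    rw [hBad, Finset.mem_filter, Fintype.mem_piFinset] at ha
    rw [Fintype.mem_piFinset]
    intro i
    by_cases hi : i ∈ I
    · simp [pr, hi]
    · simpa [pr, hi] using ha.1 i
  have hfib : ∀ b ∈ Bad.image pr, (Bad.filter (fun a => pr a = b)).card
      ≤ ⌊D / (ε / B ^ r) ^ 2⌋₊ * (2 * L) ^ (k + 1) := by
    intro b _
    let F : X → ℂ := fun x => ((1 / B ^ r : ℝ) : ℂ)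
      * ∏ i ∈ S \ I, g i ((⇑T)^[s n i + b i] x)
    have hFBM : BM F := bMul (BM.const _) (bProd _ (fun i => bComp (hg i) T _))
    have hFle : ∀ x, ‖F x‖ ≤ 1 := by
      intro x
      simp only [F]
      rw [norm_mul, Complex.norm_real, Real.norm_of_nonneg (by positivity)]
      have h1 := prod_bound hB1 hB (S \ I) (fun i => (⇑T)^[s n i + b i] x)
      calc 1 / B ^ r * ‖∏ i ∈ S \ I, g i ((⇑T)^[s n i + b i] x)‖ ≤ 1 / B ^ r * B ^ r :=
            mul_le_mul_of_nonneg_left h1 (by positivity)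
        _ = 1 := by field_simp
    have hFL : MemLp F 2 μ := MemLp.of_bound hFBM.1.aestronglyMeasurable 1
      (Eventually.of_forall hFle)
    have hF1 : ∫ x, ‖F x‖ ^ 2 ∂μ ≤ 1 := by
      have h1 : ∫ x, ‖F x‖ ^ 2 ∂μ ≤ ∫ _x, (1 : ℝ) ∂μ := by
        apply integral_mono (hFL.integrable_norm_pow (by norm_num)) (integrable_const _)
        intro x
        exact pow_le_one₀ (norm_nonneg _) (hFle x)
      simpa using h1
    obtain ⟨C, hC1, hC2⟩ := hn F hFL hF1
    have hCc : C.card ≤ ⌊D / (ε / B ^ r) ^ 2⌋₊ := by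
      apply Nat.le_floor
      rw [le_div_iff₀ (by positivity)]
      exact hC1
    let Q : Finset (Fin (k + 1) → ℕ) := C.biUnion (fun c =>
      Fintype.piFinset (fun i => Finset.Ico (c i + 1 - L) (c i + L)))
    have hQ : Q.card ≤ C.card * (2 * L) ^ (k + 1) := by
      apply Finset.card_biUnion_le_card_mul
      intro c _
      rw [Fintype.card_piFinset]
      calc ∏ i, (Finset.Ico (c i + 1 - L) (c i + L)).card ≤ ∏ _i : Fin (k + 1), (2 * L) := by
            apply Finset.prod_le_prod' (fun i _ => ?_)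
            rw [Nat.card_Ico]
            omega
        _ = (2 * L) ^ (k + 1) := by simp
    refine le_trans ?_ (hQ.trans (Nat.mul_le_mul_right _ hCc))
    apply Finset.card_le_card_of_injOn (fun a j => a (e j))
    · intro a ha
      rw [Finset.mem_coe, Finset.mem_filter, hBad, Finset.mem_filter, Fintype.mem_piFinset] at ha
      obtain ⟨⟨haW, haε⟩, hab⟩ := ha
      have hab' : ∀ i, i ∉ I → a i = b i := by
        intro i hi
        rw [← hab]
        simp [pr, hi]
      have key : ¬ ∀ c ∈ C, ∃ i, (L : ℤ) ≤ |((a (e i) : ℕ) : ℤ) - c i| := by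
        intro hcon
        have h3 := hC2 (fun j => a (e j)) (fun j => (Finset.mem_range.1 (haW (e j))).le) hcon
        have h4 : ∫ x, F x * uu T (fun j => g (e j)) (fun j => s n (e j)) (fun j => a (e j)) x ∂μ
            = ((1 / B ^ r : ℝ) : ℂ) * ∫ x, ∏ i ∈ S, g i ((⇑T)^[s n i + a i] x) ∂μ := by
          rw [← integral_const_mul]
          congr 1
          ext x
          have h5 : uu T (fun j => g (e j)) (fun j => s n (e j)) (fun j => a (e j)) x
              = ∏ i ∈ I, g i ((⇑T)^[s n i + a i] x) :=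
            (prod_orderEmb I hI (fun i => g i ((⇑T)^[s n i + a i] x))).symm
          rw [h5]
          simp only [F]
          rw [mul_assoc]
          congr 1
          rw [← Finset.prod_sdiff hIS]
          congr 1
          refine Finset.prod_congr rfl (fun i hi => ?_)
          rw [hab' i (Finset.mem_sdiff.1 hi).2]
        rw [h4, norm_mul, Complex.norm_real, Real.norm_of_nonneg (by positivity)] at h3
        have h6 : 1 / B ^ r * ε ≤ 1 / B ^ r * ‖∫ x, ∏ i ∈ S, g i ((⇑T)^[s n i + a i] x) ∂μ‖ :=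
          mul_le_mul_of_nonneg_left haε (by positivity)
        have h7 : 1 / B ^ r * ε = ε / B ^ r := by ring
        linarith
      push Not at key
      obtain ⟨c, hc, hc2⟩ := key
      rw [Finset.mem_coe, Finset.mem_biUnion]
      refine ⟨c, hc, ?_⟩
      rw [Fintype.mem_piFinset]
      intro i
      have := hc2 i
      rw [abs_lt] at this
      rw [Finset.mem_Ico]
      show c i + 1 - L ≤ a (e i) ∧ a (e i) < c i + L
      constructor <;> omega
    · intro a ha a' ha' haa'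
      rw [Finset.mem_coe, Finset.mem_filter] at ha ha'
      funext i
      by_cases hi : i ∈ I
      · obtain ⟨j, rfl⟩ := hIe i hi
        exact congrFun haa' j
      · have h1 := congrFun ha.2 i
        have h2 := congrFun ha'.2 i
        simp only [pr, hi, if_false] at h1 h2
        rw [h1, h2]
  calc Bad.card ≤ (⌊D / (ε / B ^ r) ^ 2⌋₊ * (2 * L) ^ (k + 1)) * (Bad.image pr).card :=
        Finset.card_le_mul_card_image _ _ hfib
    _ ≤ (⌊D / (ε / B ^ r) ^ 2⌋₊ * (2 * L) ^ (k + 1)) * W ^ (r - (k + 1)) :=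
        Nat.mul_le_mul_left _ himg


theorem sum_expand {r : ℕ} (μ : Measure X) [IsProbabilityMeasure μ] (T : X ≃ᵐ X)
    {f : Fin r → X → ℂ} (hf : ∀ i, BM (f i)) (t : Fin r → ℕ) :
    ∫ x, ∏ i, f i ((⇑T)^[t i] x) ∂μ = ∑ S : Finset (Fin r), (∏ i ∈ Sᶜ, ∫ y, f i y ∂μ)
      * ∫ x, ∏ i ∈ S, (f i ((⇑T)^[t i] x) - ∫ y, f i y ∂μ) ∂μ := by
  classical
  have e : ∀ x, ∏ i, f i ((⇑T)^[t i] x) = ∑ S : Finset (Fin r), (∏ i ∈ Sᶜ, ∫ y, f i y ∂μ)
      * ∏ i ∈ S, (f i ((⇑T)^[t i] x) - ∫ y, f i y ∂μ) := by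
    intro x
    have h1 : ∀ i, f i ((⇑T)^[t i] x) = (f i ((⇑T)^[t i] x) - ∫ y, f i y ∂μ)
        + ∫ y, f i y ∂μ := fun i => by ring
    have h2 : ∏ i, f i ((⇑T)^[t i] x) = ∏ i, ((f i ((⇑T)^[t i] x) - ∫ y, f i y ∂μ)
        + ∫ y, f i y ∂μ) := Finset.prod_congr rfl (fun i _ => h1 i)
    rw [h2, Finset.prod_add, Finset.powerset_univ]
    refine Finset.sum_congr rfl (fun S _ => ?_)
    rw [mul_comm, Finset.compl_eq_univ_sdiff]
  simp only [e]
  have hi : ∀ S : Finset (Fin r), Integrable (fun x => (∏ i ∈ Sᶜ, ∫ y, f i y ∂μ)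
      * ∏ i ∈ S, (f i ((⇑T)^[t i] x) - ∫ y, f i y ∂μ)) μ := by
    intro S
    have h1 : BM (fun x => ∏ i ∈ S, (f i ((⇑T)^[t i] x) - ∫ y, f i y ∂μ)) :=
      bProd S (G := fun i x => f i ((⇑T)^[t i] x) - ∫ y, f i y ∂μ)
        (fun i => (bComp (hf i) T (t i)).sub (BM.const _))
    exact (h1.integrable).const_mul _
  rw [integral_finsetSum _ (fun S _ => hi S)]
  refine Finset.sum_congr rfl (fun S _ => ?_)
  rw [integral_const_mul]

theorem count_main {k r : ℕ} {μ : Measure X} [IsProbabilityMeasure μ] {T : X ≃ᵐ X}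
    (hT : MeasurePreserving T μ μ) (hm : Mixing μ T) (hfact : FactSet μ T (k + 1))
    {f : Fin r → X → ℂ} (hf : ∀ i, BM (f i)) {ε : ℝ} (hε : 0 < ε) :
    ∃ K : ℕ, ∀ W : ℕ, ∀ s : ℕ → Fin r → ℕ, Spread s → ∀ᶠ n in atTop,
      ((Fintype.piFinset fun _ : Fin r => Finset.range W).filter (fun a =>
        ε ≤ ‖∫ x, ∏ i, f i ((⇑T)^[s n i + a i] x) ∂μ - ∏ i, ∫ x, f i x ∂μ‖)).card
        ≤ K * W ^ (r - (k + 1)) := by
  classical
  obtain ⟨B, hB1, hB⟩ := exists_bound hf
  have hBp : 0 < B ^ r := by positivity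
  let g : Fin r → X → ℂ := fun i x => f i x - ∫ y, f i y ∂μ
  have hg : ∀ i, BM (g i) := fun i => (hf i).sub (BM.const _)
  have hmean : ∀ i, ∫ x, g i x ∂μ = 0 := by
    intro i
    simp only [g]
    rw [integral_sub (hf i).integrable (integrable_const _)]
    simp
  set ε' : ℝ := ε / (2 * 2 ^ r * B ^ r) with hε'
  have hε'0 : 0 < ε' := by positivity
  have hK : ∀ S : Finset (Fin r), ∃ K : ℕ, k + 1 ≤ S.card → ∀ W : ℕ, ∀ s : ℕ → Fin r → ℕ,
      Spread s → ∀ᶠ n in atTop,
      ((Fintype.piFinset fun _ : Fin r => Finset.range W).filter (fun a =>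
        ε' ≤ ‖∫ x, ∏ i ∈ S, g i ((⇑T)^[s n i + a i] x) ∂μ‖)).card
        ≤ K * W ^ (r - (k + 1)) := by
    intro S
    by_cases hS : k + 1 ≤ S.card
    · obtain ⟨I, hIS, hI⟩ := Finset.exists_subset_card_eq hS
      obtain ⟨K, hK⟩ := count_big hT hm hfact hg hmean hIS hI hε'0
      exact ⟨K, fun _ => hK⟩
    · exact ⟨0, fun h => absurd h hS⟩
  choose K hK using hK
  refine ⟨∑ S, K S, fun W s hs => ?_⟩
  set Wn : Finset (Fin r → ℕ) := Fintype.piFinset fun _ : Fin r => Finset.range W with hWn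
  have ev1 : ∀ᶠ n in atTop, ∀ S : Finset (Fin r), k + 1 ≤ S.card →
      (Wn.filter (fun a => ε' ≤ ‖∫ x, ∏ i ∈ S, g i ((⇑T)^[s n i + a i] x) ∂μ‖)).card
        ≤ K S * W ^ (r - (k + 1)) := by
    rw [Filter.eventually_all]
    intro S
    by_cases hS : k + 1 ≤ S.card
    · filter_upwards [hK S hS W s hs] with n hn _
      exact hn
    · exact Eventually.of_forall (fun n h => absurd h hS)
  have ev2 : ∀ᶠ n in atTop, ∀ S : Finset (Fin r), S.Nonempty → S.card ≤ k → ∀ a ∈ Wn,
      ‖∫ x, ∏ i ∈ S, g i ((⇑T)^[s n i + a i] x) ∂μ‖ < ε' := by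
    rw [Filter.eventually_all]
    intro S
    by_cases hS : S.Nonempty ∧ S.card ≤ k
    · have h1 : ∀ᶠ n in atTop, ∀ a ∈ Wn,
          ‖∫ x, ∏ i ∈ S, g i ((⇑T)^[s n i + a i] x) ∂μ‖ < ε' := by
        rw [Filter.eventually_all_finset]
        intro a _
        have h2 := small_corr hT hfact hg hmean hS.1 (by omega) hs a
        rw [Metric.tendsto_atTop] at h2
        obtain ⟨N, hN⟩ := h2 ε' hε'0
        filter_upwards [eventually_ge_atTop N] with n hn
        have := hN n hn
        rwa [dist_zero_right] at this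
      filter_upwards [h1] with n hn _ _
      exact hn
    · exact Eventually.of_forall (fun n h h' => absurd ⟨h, h'⟩ hS)
  filter_upwards [ev1, ev2] with n h1 h2
  have hsub : Wn.filter (fun a =>
        ε ≤ ‖∫ x, ∏ i, f i ((⇑T)^[s n i + a i] x) ∂μ - ∏ i, ∫ x, f i x ∂μ‖)
      ⊆ (Finset.univ.filter (fun S : Finset (Fin r) => k + 1 ≤ S.card)).biUnion
        (fun S => Wn.filter (fun a =>
          ε' ≤ ‖∫ x, ∏ i ∈ S, g i ((⇑T)^[s n i + a i] x) ∂μ‖)) := by
    intro a ha
    rw [Finset.mem_filter] at ha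
    obtain ⟨haW, haε⟩ := ha
    by_contra hcon
    rw [Finset.mem_biUnion] at hcon
    push Not at hcon
    have h3 : ∀ S : Finset (Fin r), S.Nonempty →
        ‖∫ x, ∏ i ∈ S, g i ((⇑T)^[s n i + a i] x) ∂μ‖ < ε' := by
      intro S hS
      by_cases hSk : k + 1 ≤ S.card
      · have h4 := hcon S (Finset.mem_filter.2 ⟨Finset.mem_univ _, hSk⟩)
        rw [Finset.mem_filter] at h4
        push Not at h4
        exact h4 haW
      · exact h2 S hS (by omega) a haW
    have h4 : ∫ x, ∏ i, f i ((⇑T)^[s n i + a i] x) ∂μ - ∏ i, ∫ x, f i x ∂μ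
        = ∑ S ∈ Finset.univ.erase (∅ : Finset (Fin r)), (∏ i ∈ Sᶜ, ∫ y, f i y ∂μ)
          * ∫ x, ∏ i ∈ S, g i ((⇑T)^[s n i + a i] x) ∂μ := by
      rw [sum_expand μ T hf, ← Finset.add_sum_erase _ _ (Finset.mem_univ (∅ : Finset (Fin r)))]
      simp [g]
    have h5 : ‖∫ x, ∏ i, f i ((⇑T)^[s n i + a i] x) ∂μ - ∏ i, ∫ x, f i x ∂μ‖
        ≤ ∑ S ∈ Finset.univ.erase (∅ : Finset (Fin r)), B ^ r * ε' := by
      rw [h4]
      refine (norm_sum_le _ _).trans (Finset.sum_le_sum (fun S hS => ?_))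
      rw [norm_mul]
      have hSn : S.Nonempty := Finset.nonempty_iff_ne_empty.2 (Finset.ne_of_mem_erase hS)
      refine mul_le_mul ?_ (h3 S hSn).le (norm_nonneg _) (by positivity)
      rw [norm_prod]
      have h6 : ∀ i ∈ Sᶜ, ‖∫ x, f i x ∂μ‖ ≤ B := by
        intro i _
        have := norm_integral_le_of_norm_le_const (μ := μ) (Eventually.of_forall (hB i))
        simpa using this
      refine (Finset.prod_le_prod (fun i _ => norm_nonneg _) h6).trans ?_
      rw [Finset.prod_const]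
      refine pow_le_pow_right₀ hB1 ?_
      calc Sᶜ.card ≤ (Finset.univ : Finset (Fin r)).card :=
            Finset.card_le_card (Finset.subset_univ _)
        _ = r := by simp
    have h6 : ∑ S ∈ Finset.univ.erase (∅ : Finset (Fin r)), B ^ r * ε' ≤ ε / 2 := by
      rw [Finset.sum_const, nsmul_eq_mul]
      have h7 : ((Finset.univ.erase (∅ : Finset (Fin r))).card : ℝ) ≤ 2 ^ r := by
        have : (Finset.univ.erase (∅ : Finset (Fin r))).card
            ≤ (Finset.univ : Finset (Finset (Fin r))).card :=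
          Finset.card_le_card (Finset.subset_univ _)
        have h8 : (Finset.univ : Finset (Finset (Fin r))).card = 2 ^ r := by simp
        rw [h8] at this
        exact_mod_cast this
      calc ((Finset.univ.erase (∅ : Finset (Fin r))).card : ℝ) * (B ^ r * ε')
          ≤ 2 ^ r * (B ^ r * ε') := mul_le_mul_of_nonneg_right h7 (by positivity)
        _ = ε / 2 := by
            rw [hε']
            field_simp
    linarith
  calc (Wn.filter (fun a =>
        ε ≤ ‖∫ x, ∏ i, f i ((⇑T)^[s n i + a i] x) ∂μ - ∏ i, ∫ x, f i x ∂μ‖)).card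
      ≤ ∑ S ∈ Finset.univ.filter (fun S : Finset (Fin r) => k + 1 ≤ S.card),
          (Wn.filter (fun a =>
            ε' ≤ ‖∫ x, ∏ i ∈ S, g i ((⇑T)^[s n i + a i] x) ∂μ‖)).card :=
        (Finset.card_le_card hsub).trans Finset.card_biUnion_le
    _ ≤ ∑ S ∈ Finset.univ.filter (fun S : Finset (Fin r) => k + 1 ≤ S.card),
          K S * W ^ (r - (k + 1)) :=
        Finset.sum_le_sum (fun S hS => h1 S (Finset.mem_filter.1 hS).2)
    _ ≤ ∑ S, K S * W ^ (r - (k + 1)) :=
        Finset.sum_le_sum_of_subset (Finset.filter_subset _ _)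
    _ = (∑ S, K S) * W ^ (r - (k + 1)) := by rw [Finset.sum_mul]

end Pool.Agent.TH232.RL
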