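import Pool.Agent.H716R2.MixK

/-!
# Local finiteness of the set of bad times for correlations of order `k + 2` of a `Mix(k)` map
-/

set_option autoImplicit false
open MeasureTheory Filter Topology ComplexConjugate
open Pool.Agent.H716R2

namespace Pool.Agent.TH232.RL

variable {X : Type*} [MeasurableSpace X]

theorem factSet_two {μ : Measure X} [IsProbabilityMeasure μ] {T : X ≃ᵐ X}
    (hT : MeasurePreserving T μ μ) (hm : Mixing μ T) : FactSet μ T 2 := by
  refine factSet_of_mixK hT (k := 1) ?_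
  intro A hA ε hε
  have h := hm (A 0) (A 1) (hA 0) (hA 1)
  rw [Metric.tendsto_atTop] at h
  obtain ⟨N, hN⟩ := h ε hε
  refine ⟨N, fun m hm' => ?_⟩
  have h1 := hN (m 0) (hm' 0 (by norm_num))
  rw [Real.dist_eq] at h1
  have e1 : (⋂ i ∈ Finset.range (1 + 1), (⇑T)^[∑ j ∈ Finset.range i, m j] ⁻¹' A i)
      = A 0 ∩ (⇑T)^[m 0] ⁻¹' A 1 := by
    ext x
    simp only [Set.mem_iInter, Finset.mem_range, Set.mem_preimage, Set.mem_inter_iff]
    constructor
    · intro h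
      have h0 := h 0 (by norm_num)
      have h1 := h 1 (by norm_num)
      simp at h0 h1
      exact ⟨h0, h1⟩
    · rintro ⟨h0, h1⟩ i hi
      interval_cases i
      · simpa using h0
      · simpa using h1
  rw [e1]
  simpa [Finset.prod_range_succ] using h1

theorem bComp {G : X → ℂ} (hG : BM G) (T : X ≃ᵐ X) (n : ℕ) :
    BM (fun x => G ((⇑T)^[n] x)) := by
  obtain ⟨h1, C, h2⟩ := hG
  exact ⟨h1.comp (iter_meas T n), C, fun x => h2 _⟩

theorem bConj {G : X → ℂ} (hG : BM G) : BM (fun x => conj (G x)) := by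
  obtain ⟨h1, C, h2⟩ := hG
  refine ⟨Complex.continuous_conj.measurable.comp h1, C, fun x => ?_⟩
  rw [Complex.norm_conj]
  exact h2 x

theorem bMul {G H : X → ℂ} (hG : BM G) (hH : BM H) : BM (fun x => G x * H x) := by
  obtain ⟨h1, C, h2⟩ := hG
  obtain ⟨h3, D, h4⟩ := hH
  refine ⟨h1.mul h3, C * D, fun x => ?_⟩
  rw [norm_mul]
  exact mul_le_mul (h2 x) (h4 x) (norm_nonneg _) ((norm_nonneg _).trans (h2 x))

theorem bProd {ι : Type*} (S : Finset ι) {G : ι → X → ℂ} (hG : ∀ i, BM (G i)) :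
    BM (fun x => ∏ i ∈ S, G i x) := by
  choose h1 C h2 using hG
  refine ⟨Finset.measurable_prod _ (fun i _ => h1 i), ∏ i ∈ S, C i, fun x => ?_⟩
  rw [norm_prod]
  exact Finset.prod_le_prod (fun i _ => norm_nonneg _) (fun i _ => h2 i x)

theorem bSum {ι : Type*} (S : Finset ι) {G : ι → X → ℂ} (hG : ∀ i, BM (G i)) :
    BM (fun x => ∑ i ∈ S, G i x) := by
  choose h1 C h2 using hG
  refine ⟨Finset.measurable_sum _ (fun i _ => h1 i), ∑ i ∈ S, C i, fun x => ?_⟩
  refine (norm_sum_le _ _).trans ?_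
  exact Finset.sum_le_sum (fun i _ => h2 i x)

/-- the autocorrelation -/
noncomputable def gam (μ : Measure X) (T : X ≃ᵐ X) (G : X → ℂ) (a b : ℕ) : ℂ :=
  ∫ x, G ((⇑T)^[a] x) * conj (G ((⇑T)^[b] x)) ∂μ

theorem gam_swap {μ : Measure X} {T : X ≃ᵐ X} (G : X → ℂ) (a b : ℕ) :
    ‖gam μ T G a b‖ = ‖gam μ T G b a‖ := by
  have : gam μ T G a b = conj (gam μ T G b a) := by
    unfold gam
    rw [← integral_conj]
    congr 1
    ext x
    simp [mul_comm]
  rw [this, Complex.norm_conj]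

theorem gam_small_aux {μ : Measure X} [IsProbabilityMeasure μ] {T : X ≃ᵐ X}
    (hT : MeasurePreserving T μ μ) (hm : Mixing μ T) {G : X → ℂ} (hG : BM G)
    (h0 : ∫ x, G x ∂μ = 0) {δ : ℝ} (hδ : 0 < δ) :
    ∃ L : ℕ, ∀ a b : ℕ, a + L ≤ b → ‖gam μ T G a b‖ < δ := by
  by_contra hcon
  push Not at hcon
  choose a b hab hge using hcon
  have hs : Spread (fun n : ℕ => (![a n, b n] : Fin 2 → ℕ)) := by
    intro N
    filter_upwards [eventually_ge_atTop N] with n hn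
    intro i j hij
    have := hab n
    fin_cases i <;> fin_cases j <;> simp at hij ⊢
    omega
  have h1 := fact_fun hT (factSet_two hT hm) hs (![G, fun x => conj (G x)] : Fin 2 → X → ℂ)
    (by
      intro i
      fin_cases i
      · exact hG.1
      · exact (bConj hG).1)
    (by
      intro i
      fin_cases i
      · exact hG.2
      · exact (bConj hG).2)
  have e1 : (∏ i : Fin 2, ∫ x, (![G, fun x => conj (G x)] : Fin 2 → X → ℂ) i x ∂μ) = 0 := by
    rw [Fin.prod_univ_two]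
    simp [h0]
  rw [e1] at h1
  have e2 : ∀ n, ∫ x, ∏ i : Fin 2, (![G, fun x => conj (G x)] : Fin 2 → X → ℂ) i
      ((⇑T)^[(![a n, b n] : Fin 2 → ℕ) i] x) ∂μ = gam μ T G (a n) (b n) := by
    intro n
    unfold gam
    congr 1
    ext x
    rw [Fin.prod_univ_two]
    simp
  simp only [e2] at h1
  rw [Metric.tendsto_atTop] at h1
  obtain ⟨N, hN⟩ := h1 δ hδ
  have h2 := hN N le_rfl
  rw [dist_zero_right] at h2
  exact absurd h2 (not_lt.2 (hge N))

theorem gam_small {μ : Measure X} [IsProbabilityMeasure μ] {T : X ≃ᵐ X}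
    (hT : MeasurePreserving T μ μ) (hm : Mixing μ T) {G : X → ℂ} (hG : BM G)
    (h0 : ∫ x, G x ∂μ = 0) {δ : ℝ} (hδ : 0 < δ) :
    ∃ L : ℕ, ∀ L' : ℕ, L ≤ L' → ∀ a b : ℕ, (L' : ℤ) ≤ |(a : ℤ) - b| → ‖gam μ T G a b‖ < δ := by
  obtain ⟨L, hL⟩ := gam_small_aux hT hm hG h0 hδ
  refine ⟨L, fun L' hL' a b hab => ?_⟩
  rcases le_total a b with h | h
  · apply hL
    rw [abs_of_nonpos (by omega)] at hab
    omega
  · rw [gam_swap]
    apply hL
    rw [abs_of_nonneg (by omega)] at hab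
    omega

theorem gam_diag {μ : Measure X} [IsProbabilityMeasure μ] {T : X ≃ᵐ X}
    (hT : MeasurePreserving T μ μ) (G : X → ℂ) (hG : BM G) (a : ℕ) :
    gam μ T G a a = ((∫ x, ‖G x‖ ^ 2 ∂μ : ℝ) : ℂ) := by
  unfold gam
  have h1 : ∀ x, G ((⇑T)^[a] x) * conj (G ((⇑T)^[a] x)) = ((‖G ((⇑T)^[a] x)‖ ^ 2 : ℝ) : ℂ) := by
    intro x
    rw [Complex.mul_conj, Complex.normSq_eq_norm_sq]
  simp only [h1]
  rw [integral_complex_ofReal]
  congr 1
  have hm : AEStronglyMeasurable (fun x => ‖G x‖ ^ 2) (Measure.map (⇑T)^[a] μ) :=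
    ((hG.1.norm).pow_const 2).aestronglyMeasurable
  have h5 := integral_map (μ := μ) (iter_mp hT a).measurable.aemeasurable hm
  rw [(iter_mp hT a).map_eq] at h5
  exact h5.symm

theorem cs {μ : Measure X} [IsProbabilityMeasure μ] {g h : X → ℂ} (hg : MemLp g 2 μ)
    (hh : BM h) :
    ‖∫ x, g x * h x ∂μ‖ ^ 2 ≤ (∫ x, ‖g x‖ ^ 2 ∂μ) * ∫ x, ‖h x‖ ^ 2 ∂μ := by
  have ig : Integrable (fun x => ‖g x‖ ^ 2) μ := hg.integrable_norm_pow (by norm_num)
  have ih : Integrable (fun x => ‖h x‖ ^ 2) μ := by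
    obtain ⟨C, hC⟩ := hh.2
    refine Integrable.of_bound ((hh.1.norm).pow_const 2).aestronglyMeasurable (C ^ 2)
      (Eventually.of_forall (fun x => ?_))
    rw [Real.norm_of_nonneg (by positivity)]
    exact pow_le_pow_left₀ (norm_nonneg _) (hC x) 2
  have igh : Integrable (fun x => ‖g x‖ * ‖h x‖) μ := by
    obtain ⟨C, hC⟩ := hh.2
    refine (hg.integrable (by norm_num)).norm.mul_bdd (c := C)
      (hh.1.norm).aestronglyMeasurable (Eventually.of_forall (fun x => ?_))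
    rw [Real.norm_of_nonneg (norm_nonneg _)]
    exact hC x
  have hq : ∀ t : ℝ, 0 ≤ (∫ x, ‖h x‖ ^ 2 ∂μ) * (t * t) + (-2 * ∫ x, ‖g x‖ * ‖h x‖ ∂μ) * t
      + ∫ x, ‖g x‖ ^ 2 ∂μ := by
    intro t
    have h1 : 0 ≤ ∫ x, (‖g x‖ - t * ‖h x‖) ^ 2 ∂μ := integral_nonneg (fun x => sq_nonneg _)
    have h2 : ∫ x, (‖g x‖ - t * ‖h x‖) ^ 2 ∂μ = (∫ x, ‖h x‖ ^ 2 ∂μ) * (t * t)
        + (-2 * ∫ x, ‖g x‖ * ‖h x‖ ∂μ) * t + ∫ x, ‖g x‖ ^ 2 ∂μ := by
      have e : ∀ x, (‖g x‖ - t * ‖h x‖) ^ 2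
          = (t * t) * ‖h x‖ ^ 2 + (-2 * t) * (‖g x‖ * ‖h x‖) + ‖g x‖ ^ 2 := by
        intro x; ring
      simp only [e]
      rw [integral_add (f := fun x => (t * t) * ‖h x‖ ^ 2 + (-2 * t) * (‖g x‖ * ‖h x‖))
        (g := fun x => ‖g x‖ ^ 2) ((ih.const_mul _).add (igh.const_mul _)) ig,
        integral_add (ih.const_mul _) (igh.const_mul _), integral_const_mul, integral_const_mul]
      ring
    rw [h2] at h1
    exact h1
  have hd := discrim_le_zero hq
  unfold discrim at hd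
  have h3 : (∫ x, ‖g x‖ * ‖h x‖ ∂μ) ^ 2 ≤ (∫ x, ‖g x‖ ^ 2 ∂μ) * ∫ x, ‖h x‖ ^ 2 ∂μ := by
    nlinarith
  have h4 : ‖∫ x, g x * h x ∂μ‖ ≤ ∫ x, ‖g x‖ * ‖h x‖ ∂μ := by
    refine (norm_integral_le_integral_norm _).trans (le_of_eq ?_)
    simp only [norm_mul]
  exact (pow_le_pow_left₀ (norm_nonneg _) h4 2).trans h3

/-- Bessel's inequality for almost orthogonal families. -/
theorem bessel {μ : Measure X} [IsProbabilityMeasure μ] {ι : Type*} [DecidableEq ι]
    (Λ : Finset ι) {g : X → ℂ}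
    (hg : MemLp g 2 μ) {u : ι → X → ℂ} (hu : ∀ a, BM (u a)) {D η : ℝ} (hD : 0 ≤ D) (hη : 0 ≤ η)
    (hdiag : ∀ a ∈ Λ, ‖∫ x, u a x * conj (u a x) ∂μ‖ ≤ D + η)
    (hoff : ∀ a ∈ Λ, ∀ b ∈ Λ, a ≠ b → ‖∫ x, u a x * conj (u b x) ∂μ‖ ≤ η) :
    ∑ a ∈ Λ, ‖∫ x, g x * u a x ∂μ‖ ^ 2
      ≤ (∫ x, ‖g x‖ ^ 2 ∂μ) * (D + (Λ.card + 1) * η) := by
  set c : ι → ℂ := fun a => ∫ x, g x * u a x ∂μ with hc
  set S : ℝ := ∑ a ∈ Λ, ‖c a‖ ^ 2 with hS
  have hS0 : 0 ≤ S := Finset.sum_nonneg (fun a _ => by positivity)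
  let v : X → ℂ := fun x => ∑ a ∈ Λ, conj (c a) * u a x
  have hv : BM v := bSum Λ (fun a => bMul (BM.const _) (hu a))
  have hgu : ∀ a, Integrable (fun x => g x * u a x) μ := by
    intro a
    obtain ⟨C, hC⟩ := (hu a).2
    exact (hg.integrable (by norm_num)).mul_bdd (c := C) (hu a).1.aestronglyMeasurable
      (Eventually.of_forall hC)
  have h1 : ∫ x, g x * v x ∂μ = (S : ℂ) := by
    have e : ∀ x, g x * v x = ∑ a ∈ Λ, conj (c a) * (g x * u a x) := by
      intro x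
      simp only [v, Finset.mul_sum]
      refine Finset.sum_congr rfl (fun a _ => ?_)
      ring
    simp only [e]
    rw [integral_finsetSum _ (fun a _ => (hgu a).const_mul _)]
    rw [hS]
    push_cast
    refine Finset.sum_congr rfl (fun a _ => ?_)
    rw [integral_const_mul]
    change conj (c a) * c a = _
    rw [mul_comm, Complex.mul_conj, Complex.normSq_eq_norm_sq]
    push_cast
    rfl
  have h2 : ∫ x, ‖v x‖ ^ 2 ∂μ ≤ S * (D + (Λ.card + 1) * η) := by
    have e1 : ((∫ x, ‖v x‖ ^ 2 ∂μ : ℝ) : ℂ)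
        = ∑ a ∈ Λ, ∑ b ∈ Λ, (conj (c a) * c b) * ∫ x, u a x * conj (u b x) ∂μ := by
      rw [← integral_complex_ofReal]
      have e : ∀ x, ((‖v x‖ ^ 2 : ℝ) : ℂ)
          = ∑ a ∈ Λ, ∑ b ∈ Λ, (conj (c a) * c b) * (u a x * conj (u b x)) := by
        intro x
        rw [← Complex.normSq_eq_norm_sq, ← Complex.mul_conj]
        simp only [v, map_sum, map_mul, Complex.conj_conj]
        rw [Finset.sum_mul_sum]
        refine Finset.sum_congr rfl (fun a _ => Finset.sum_congr rfl (fun b _ => ?_))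
        ring
      simp only [e]
      have hi : ∀ a b, Integrable (fun x => (conj (c a) * c b) * (u a x * conj (u b x))) μ :=
        fun a b => ((bMul (hu a) (bConj (hu b))).integrable).const_mul _
      rw [integral_finsetSum _ (fun a _ => integrable_finsetSum _ (fun b _ => hi a b))]
      refine Finset.sum_congr rfl (fun a _ => ?_)
      rw [integral_finsetSum _ (fun b _ => hi a b)]
      refine Finset.sum_congr rfl (fun b _ => ?_)
      rw [integral_const_mul]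
    have h3 : ∫ x, ‖v x‖ ^ 2 ∂μ ≤ ∑ a ∈ Λ, ∑ b ∈ Λ,
        ‖c a‖ * ‖c b‖ * ((if a = b then D else 0) + η) := by
      have h4 : ∫ x, ‖v x‖ ^ 2 ∂μ = ‖((∫ x, ‖v x‖ ^ 2 ∂μ : ℝ) : ℂ)‖ := by
        rw [Complex.norm_real, Real.norm_of_nonneg (integral_nonneg (fun x => by positivity))]
      rw [h4, e1]
      refine (norm_sum_le _ _).trans (Finset.sum_le_sum (fun a ha => ?_))
      refine (norm_sum_le _ _).trans (Finset.sum_le_sum (fun b hb => ?_))
      rw [norm_mul, norm_mul, Complex.norm_conj]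
      refine mul_le_mul_of_nonneg_left ?_ (by positivity)
      by_cases hab : a = b
      · subst hab
        simpa using hdiag a ha
      · simpa [hab] using hoff a ha b hb hab
    have h5 : ∑ a ∈ Λ, ∑ b ∈ Λ, ‖c a‖ * ‖c b‖ * ((if a = b then D else 0) + η)
        = S * D + (∑ a ∈ Λ, ‖c a‖) ^ 2 * η := by
      have e : ∀ a ∈ Λ, ∑ b ∈ Λ, ‖c a‖ * ‖c b‖ * ((if a = b then D else 0) + η)
          = ‖c a‖ ^ 2 * D + ‖c a‖ * (∑ b ∈ Λ, ‖c b‖) * η := by
        intro a ha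
        simp only [mul_add, Finset.sum_add_distrib, mul_ite, mul_zero]
        rw [Finset.sum_ite_eq Λ a (fun b => ‖c a‖ * ‖c b‖ * D), if_pos ha]
        congr 1
        · ring
        · rw [Finset.mul_sum, Finset.sum_mul]
      rw [Finset.sum_congr rfl e, Finset.sum_add_distrib, ← Finset.sum_mul, ← Finset.sum_mul,
        ← Finset.sum_mul]
      ring
    have h6 : (∑ a ∈ Λ, ‖c a‖) ^ 2 ≤ Λ.card * S := sq_sum_le_card_mul_sum_sq
    have h7 : (∑ a ∈ Λ, ‖c a‖) ^ 2 * η ≤ Λ.card * S * η := mul_le_mul_of_nonneg_right h6 hη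
    have h8 : 0 ≤ S * η := mul_nonneg hS0 hη
    nlinarith
  have h3 := cs (μ := μ) hg hv
  rw [h1, Complex.norm_real, Real.norm_of_nonneg hS0] at h3
  have hA : 0 ≤ ∫ x, ‖g x‖ ^ 2 ∂μ := integral_nonneg (fun x => by positivity)
  have h4 : S ^ 2 ≤ (∫ x, ‖g x‖ ^ 2 ∂μ) * (S * (D + (Λ.card + 1) * η)) :=
    h3.trans (mul_le_mul_of_nonneg_left h2 hA)
  rcases hS0.eq_or_lt with h5 | h5
  · rw [← h5]
    have : 0 ≤ D + ((Λ.card : ℝ) + 1) * η := by positivity
    positivity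
  · have h6 : S * S ≤ S * ((∫ x, ‖g x‖ ^ 2 ∂μ) * (D + (Λ.card + 1) * η)) := by nlinarith
    exact le_of_mul_le_mul_left h6 h5


theorem Spread.shift {r : ℕ} {s : ℕ → Fin r → ℕ} (hs : Spread s) (a : Fin r → ℕ) :
    Spread (fun n i => s n i + a i) := by
  intro N
  filter_upwards [hs (N + ∑ i, a i)] with n hn
  intro i j hij
  have h1 := hn i j hij
  have h2 : a i ≤ ∑ i, a i := Finset.single_le_sum (fun _ _ => Nat.zero_le _) (Finset.mem_univ i)
  show s n i + a i + N ≤ s n j + a j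
  omega

/-- the product of the shifted functions -/
noncomputable def uu {k : ℕ} (T : X ≃ᵐ X) (G : Fin (k + 1) → X → ℂ) (s a : Fin (k + 1) → ℕ)
    (x : X) : ℂ := ∏ i : Fin (k + 1), G i ((⇑T)^[s i + a i] x)

theorem uu_BM {k : ℕ} (T : X ≃ᵐ X) {G : Fin (k + 1) → X → ℂ} (hG : ∀ i, BM (G i))
    (s a : Fin (k + 1) → ℕ) : BM (uu T G s a) :=
  bProd Finset.univ (fun i : Fin (k + 1) => bComp (hG i) T (s i + a i))

theorem gram_lim {k : ℕ} {μ : Measure X} [IsProbabilityMeasure μ] {T : X ≃ᵐ X}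
    (hT : MeasurePreserving T μ μ) (hfact : FactSet μ T (k + 1)) {s : ℕ → Fin (k + 1) → ℕ}
    (hs : Spread s) {G : Fin (k + 1) → X → ℂ} (hG : ∀ i, BM (G i)) (a b : Fin (k + 1) → ℕ) :
    Tendsto (fun n => ∫ x, uu T G (s n) a x * conj (uu T G (s n) b x) ∂μ) atTop
      (𝓝 (∏ i : Fin (k + 1), gam μ T (G i) (a i) (b i))) := by
  have h1 := fact_fun hT hfact hs
    (fun (i : Fin (k + 1)) (x : X) => G i ((⇑T)^[a i] x)
      * conj (G i ((⇑T)^[b i] x)))
    (fun i => (bMul (bComp (hG i) T _) (bConj (bComp (hG i) T _))).1)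
    (fun i => (bMul (bComp (hG i) T _) (bConj (bComp (hG i) T _))).2)
  refine h1.congr (fun n => ?_)
  congr 1
  ext x
  unfold uu
  rw [map_prod, ← Finset.prod_mul_distrib]
  refine Finset.prod_congr rfl (fun i _ => ?_)
  rw [← Function.iterate_add_apply, ← Function.iterate_add_apply, add_comm (a i),
    add_comm (b i)]

theorem exists_delta {J A D ε : ℝ} (h : A * D < J * ε ^ 2) (hε : 0 < ε) :
    ∃ δ : ℝ, 0 < δ ∧ δ < ε ∧ A * (D + (J + 1) * (2 * δ)) < J * (ε - δ) ^ 2 := by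
  have hc : ContinuousAt (fun δ : ℝ => J * (ε - δ) ^ 2 - A * (D + (J + 1) * (2 * δ))) 0 := by
    fun_prop
  have h0 : 0 < (fun δ : ℝ => J * (ε - δ) ^ 2 - A * (D + (J + 1) * (2 * δ))) 0 := by
    simp only
    have : J * (ε - 0) ^ 2 - A * (D + (J + 1) * (2 * 0)) = J * ε ^ 2 - A * D := by ring
    rw [this]; linarith
  have h1 : ∀ᶠ δ in 𝓝 (0 : ℝ), 0 < J * (ε - δ) ^ 2 - A * (D + (J + 1) * (2 * δ)) :=
    hc.eventually (lt_mem_nhds h0)
  have h2 : ∀ᶠ δ in 𝓝 (0 : ℝ), δ < ε := lt_mem_nhds hε |> fun _ => gt_mem_nhds hε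
  have h3 := (h1.and h2).filter_mono (nhdsWithin_le_nhds (s := Set.Ioi (0 : ℝ)))
  have h4 : ∀ᶠ δ in 𝓝[>] (0 : ℝ), 0 < δ := self_mem_nhdsWithin
  obtain ⟨δ, ⟨h5, h6⟩, h7⟩ := (h3.and h4).exists
  exact ⟨δ, h7, h6, by linarith⟩

/-- a maximal separated subset -/
theorem exists_max_sep {ι : Type*} [DecidableEq ι] (B : Finset ι) (R : ι → ι → Prop)
    (hsymm : ∀ a b, R a b → R b a) :
    ∃ C ⊆ B, (∀ a ∈ C, ∀ b ∈ C, a ≠ b → R a b) ∧ ∀ a ∈ B, a ∉ C → ∃ c ∈ C, ¬ R a c := by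
  classical
  let F : Finset (Finset ι) := B.powerset.filter (fun C => ∀ a ∈ C, ∀ b ∈ C, a ≠ b → R a b)
  have hF : F.Nonempty := ⟨∅, by simp [F]⟩
  obtain ⟨C, hC, hmax⟩ := Finset.exists_max_image F Finset.card hF
  simp only [F, Finset.mem_filter, Finset.mem_powerset] at hC hmax
  refine ⟨C, hC.1, hC.2, fun a ha haC => ?_⟩
  by_contra hcon
  push Not at hcon
  have h1 := hmax (insert a C) ⟨Finset.insert_subset ha hC.1, by
    intro x hx y hy hxy
    rw [Finset.mem_insert] at hx hy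
    rcases hx with rfl | hx
    · rcases hy with rfl | hy
      · exact absurd rfl hxy
      · exact hcon y hy
    · rcases hy with rfl | hy
      · exact hsymm _ _ (hcon x hx)
      · exact hC.2 x hx y hy hxy⟩
  rw [Finset.card_insert_of_notMem haC] at h1
  omega

theorem prod_small {k : ℕ} {g : Fin (k + 1) → ℝ} (h0 : ∀ i, 0 ≤ g i) {B δ : ℝ} (hB : 1 ≤ B)
    (hδ : 0 < δ) (hb : ∀ i, g i ≤ B) (j : Fin (k + 1)) (hj : g j < δ / B ^ (k + 1)) :
    ∏ i, g i ≤ δ := by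
  rw [← Finset.mul_prod_erase _ _ (Finset.mem_univ j)]
  have h1 : ∏ i ∈ Finset.univ.erase j, g i ≤ B ^ (k + 1) := by
    refine (Finset.prod_le_prod (fun i _ => h0 i) (fun i _ => hb i)).trans ?_
    rw [Finset.prod_const]
    refine pow_le_pow_right₀ hB ?_
    calc (Finset.univ.erase j).card ≤ (Finset.univ : Finset (Fin (k + 1))).card :=
          Finset.card_le_card (Finset.subset_univ _)
      _ = k + 1 := by simp
  have hBp : 0 < B ^ (k + 1) := by positivity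
  calc g j * ∏ i ∈ Finset.univ.erase j, g i ≤ (δ / B ^ (k + 1)) * B ^ (k + 1) :=
        mul_le_mul hj.le h1 (Finset.prod_nonneg (fun i _ => h0 i)) (by positivity)
    _ = δ := by field_simp


theorem main {k : ℕ} {μ : Measure X} [IsProbabilityMeasure μ] {T : X ≃ᵐ X}
    (hT : MeasurePreserving T μ μ) (hm : Mixing μ T) (hfact : FactSet μ T (k + 1))
    (G : Fin (k + 1) → X → ℂ) (hG : ∀ i, BM (G i)) (hmean : ∀ i, ∫ x, G i x ∂μ = 0)
    {ε : ℝ} (hε : 0 < ε) :
    ∃ L : ℕ, ∀ W : ℕ, ∀ s : ℕ → Fin (k + 1) → ℕ, Spread s → ∀ᶠ n in atTop,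
      ∀ F : X → ℂ, MemLp F 2 μ → ∫ x, ‖F x‖ ^ 2 ∂μ ≤ 1 →
        ∃ C : Finset (Fin (k + 1) → ℕ),
          (C.card : ℝ) * ε ^ 2 ≤ ∏ i, ∫ x, ‖G i x‖ ^ 2 ∂μ ∧
          ∀ a : Fin (k + 1) → ℕ, (∀ i, a i ≤ W) →
            (∀ c ∈ C, ∃ i, (L : ℤ) ≤ |(a i : ℤ) - c i|) →
            ‖∫ x, F x * uu T G (s n) a x ∂μ‖ < ε := by
  classical
  set D : ℝ := ∏ i : Fin (k + 1), ∫ x, ‖G i x‖ ^ 2 ∂μ with hD
  have hD0 : 0 ≤ D := Finset.prod_nonneg (fun i _ => integral_nonneg (fun x => by positivity))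
  set J : ℕ := ⌊D / ε ^ 2⌋₊ + 1 with hJ
  have hJ1 : 1 * D < J * ε ^ 2 := by
    have h1 : D / ε ^ 2 < J := by
      rw [hJ]; push_cast; exact Nat.lt_floor_add_one _
    rw [div_lt_iff₀ (by positivity)] at h1
    linarith
  obtain ⟨δ, hδ, hδε, hδJ⟩ := exists_delta hJ1 hε
  have hδJ2 : D + (J + 1) * (2 * δ) < J * ε ^ 2 := by
    have h1 : (J : ℝ) * (ε - δ) ^ 2 ≤ J * ε ^ 2 :=
      mul_le_mul_of_nonneg_left (pow_le_pow_left₀ (by linarith) (by linarith) 2)
        (Nat.cast_nonneg _)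
    linarith
  -- a bound for the autocorrelations
  obtain ⟨B, hB1, hB⟩ : ∃ B : ℝ, 1 ≤ B ∧ ∀ (i : Fin (k + 1)) (a b : ℕ),
      ‖gam μ T (G i) a b‖ ≤ B := by
    choose h1 C hC using hG
    refine ⟨1 + ∑ i, C i * C i, ?_, fun i a b => ?_⟩
    · have : 0 ≤ ∑ i, C i * C i := Finset.sum_nonneg (fun i _ => mul_self_nonneg _)
      linarith
    · have h2 : ‖gam μ T (G i) a b‖ ≤ C i * C i := by
        unfold gam
        have := norm_integral_le_of_norm_le_const (μ := μ) (C := C i * C i)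
          (f := fun x => G i ((⇑T)^[a] x) * conj (G i ((⇑T)^[b] x)))
          (Eventually.of_forall (fun x => by
            rw [norm_mul, Complex.norm_conj]
            exact mul_le_mul (hC _ _) (hC _ _) (norm_nonneg _)
              ((norm_nonneg _).trans (hC i x))))
        simpa using this
      have h3 : C i * C i ≤ ∑ i, C i * C i :=
        Finset.single_le_sum (f := fun i => C i * C i) (fun i _ => mul_self_nonneg _)
          (Finset.mem_univ i)
      linarith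
  -- the separation
  have hBp : 0 < B ^ (k + 1) := by positivity
  choose Li hLi using fun i : Fin (k + 1) =>
    gam_small hT hm (hG i) (hmean i) (show 0 < δ / B ^ (k + 1) by positivity)
  set L : ℕ := 1 + ∑ i, Li i with hL
  have hLi' : ∀ i, Li i ≤ L := by
    intro i
    have : Li i ≤ ∑ i, Li i := Finset.single_le_sum (fun _ _ => Nat.zero_le _) (Finset.mem_univ i)
    omega
  refine ⟨L, fun W s hs => ?_⟩
  -- the window
  let Wn : Finset (Fin (k + 1) → ℕ) := Fintype.piFinset (fun _ => Finset.range (W + 1))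
  have hWn : ∀ a : Fin (k + 1) → ℕ, a ∈ Wn ↔ ∀ i, a i ≤ W := by
    intro a
    simp [Wn, Fintype.mem_piFinset]
  have ev2 : ∀ᶠ n in atTop, ∀ a ∈ Wn, ∀ b ∈ Wn,
      ‖∫ x, uu T G (s n) a x * conj (uu T G (s n) b x) ∂μ
        - ∏ i : Fin (k + 1), gam μ T (G i) (a i) (b i)‖ < δ := by
    rw [Filter.eventually_all_finset]
    intro a _
    rw [Filter.eventually_all_finset]
    intro b _
    have h1 := gram_lim hT hfact hs hG a b
    rw [Metric.tendsto_atTop] at h1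
    obtain ⟨N, hN⟩ := h1 δ hδ
    filter_upwards [eventually_ge_atTop N] with n hn
    have := hN n hn
    rwa [dist_eq_norm] at this
  filter_upwards [ev2] with n h2
  intro F hF hF1
  let R : (Fin (k + 1) → ℕ) → (Fin (k + 1) → ℕ) → Prop :=
    fun a c => ∃ i, (L : ℤ) ≤ |(a i : ℤ) - c i|
  let Bad : Finset (Fin (k + 1) → ℕ) := Wn.filter (fun a =>
    ε ≤ ‖∫ x, F x * uu T G (s n) a x ∂μ‖)
  obtain ⟨C, hCB, hCsep, hCmax⟩ := exists_max_sep Bad R (by
    rintro a b ⟨i, hi⟩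
    refine ⟨i, ?_⟩
    rw [abs_sub_comm]
    exact hi)
  refine ⟨C, ?_, ?_⟩
  · by_contra hcon
    push Not at hcon
    have hJC : J ≤ C.card := by
      have h3 : D / ε ^ 2 < C.card := by
        rw [div_lt_iff₀ (by positivity)]
        exact hcon
      have h4 : ⌊D / ε ^ 2⌋₊ < C.card := (Nat.floor_lt (by positivity)).2 h3
      omega
    obtain ⟨Λ, hΛC, hΛ⟩ := Finset.exists_subset_card_eq hJC
    have hmemΛ : ∀ a ∈ Λ, a ∈ Wn ∧ ε ≤ ‖∫ x, F x * uu T G (s n) a x ∂μ‖ := by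
      intro a ha
      have := hCB (hΛC ha)
      simpa only [Bad, Finset.mem_filter] using this
    have hbes := bessel Λ hF (u := fun a => uu T G (s n) a) (fun a => uu_BM T hG (s n) a)
      (D := D) (η := 2 * δ) hD0 (by linarith)
      (by
        intro a ha
        have h3 := h2 a (hmemΛ a ha).1 a (hmemΛ a ha).1
        have h4 : ∏ i : Fin (k + 1), gam μ T (G i) (a i) (a i) = (D : ℂ) := by
          simp only [gam_diag hT _ (hG _)]
          rw [hD]
          push_cast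
          rfl
        rw [h4] at h3
        have h5 : ‖(D : ℂ)‖ = D := by rw [Complex.norm_real, Real.norm_of_nonneg hD0]
        have h6 := norm_add_le (∫ x, uu T G (s n) a x * conj (uu T G (s n) a x) ∂μ - (D : ℂ))
          (D : ℂ)
        rw [sub_add_cancel, h5] at h6
        linarith)
      (by
        intro a ha b hb hab
        have h3 := h2 a (hmemΛ a ha).1 b (hmemΛ b hb).1
        obtain ⟨i, hi⟩ := hCsep a (hΛC ha) b (hΛC hb) hab
        have h4 : ‖∏ i : Fin (k + 1), gam μ T (G i) (a i) (b i)‖ ≤ δ := by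
          rw [norm_prod]
          exact prod_small (fun i => norm_nonneg _) hB1 hδ (fun i => hB i _ _) i
            (hLi i L (hLi' i) _ _ hi)
        have h6 := norm_add_le (∫ x, uu T G (s n) a x * conj (uu T G (s n) b x) ∂μ
          - ∏ i : Fin (k + 1), gam μ T (G i) (a i) (b i))
          (∏ i : Fin (k + 1), gam μ T (G i) (a i) (b i))
        rw [sub_add_cancel] at h6
        linarith)
    rw [hΛ] at hbes
    have hsum : (J : ℝ) * ε ^ 2 ≤ ∑ a ∈ Λ, ‖∫ x, F x * uu T G (s n) a x ∂μ‖ ^ 2 := by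
      have h9 := Finset.sum_le_sum (fun a ha =>
        pow_le_pow_left₀ hε.le (hmemΛ a ha).2 2)
      rw [Finset.sum_const, hΛ, nsmul_eq_mul] at h9
      exact h9
    have hpos : 0 ≤ D + ((J : ℝ) + 1) * (2 * δ) := by positivity
    have hlast := mul_le_mul_of_nonneg_right hF1 hpos
    linarith
  · intro a haW hac
    by_contra hcon
    push Not at hcon
    have haB : a ∈ Bad := by
      simp only [Bad, Finset.mem_filter]
      exact ⟨(hWn a).2 haW, hcon⟩
    by_cases haC : a ∈ C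
    · obtain ⟨i, hi⟩ := hac a haC
      simp only [sub_self, abs_zero] at hi
      omega
    · obtain ⟨c, hc, hc2⟩ := hCmax a haB haC
      exact hc2 (hac c hc)

/-- Conclusion for all time vectors with large gaps from the conclusion along sequences. -/
theorem all_of_spread {r : ℕ} (P : (Fin r → ℕ) → Prop)
    (hP : ∀ s : ℕ → Fin r → ℕ, Spread s → ∀ᶠ n in atTop, P (s n)) :
    ∃ N : ℕ, ∀ s : Fin r → ℕ, (∀ i j, i < j → s i + N ≤ s j) → P s := by
  by_contra hcon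
  push Not at hcon
  choose s hs1 hs2 using hcon
  have hs : Spread s := by
    intro N
    filter_upwards [eventually_ge_atTop N] with n hn
    intro i j hij
    have := hs1 n i j hij
    omega
  obtain ⟨n, hn⟩ := (hP s hs).exists
  exact hs2 n hn

end Pool.Agent.TH232.RL
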